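import Pool.Agent.helper17.EXT.SpecJ

/-!
Project EXT (MP_561ff4_al), block J, row JQA (spec of helper17): additivity of the quadratic form. Seat helper24.
-/

set_option autoImplicit false

open Finset

namespace Pool.Agent.EXT

open Pool.Agent.EXC

theorem JQA_one {K : Type} [Field K] (h2 : (2 : K) = 0) : (-1 : K) = 1 := by
  have h : (1 : K) + 1 = 0 := by
    rw [← h2]; norm_num
  exact neg_eq_of_add_eq_zero_left h

theorem JQA_mem {K : Type} [Field K] (h2 : (2 : K) = 0) (hRTF : RTF_stmt) {v : Lm C6 K}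
    (hv : v ∈ LT (RingEquiv.refl K)) (γ : Fin 6 → ℤ) : cf v (pv γ) = cf v γ := by
  obtain ⟨hip, _, _, _, _, _, hsn, _⟩ := hRTF
  by_cases hγ : ip C6 γ γ = 2
  · have h1 : (si (RingEquiv.refl K) v).2 ⟨γ, hγ⟩ = v.2 ⟨γ, hγ⟩ := by
      rw [show si (RingEquiv.refl K) v = v from hv]
    have h3 : (sn γ : K) = 1 := by
      rcases hsn γ with h | h
      · rw [h]; simp
      · rw [h]
        push_cast
        exact JQA_one h2
    have h4 : (si (RingEquiv.refl K) v).2 ⟨γ, hγ⟩ = (sn γ : K) * cf v (pv γ) := rfl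
    rw [h4, h3, one_mul] at h1
    rw [h1]
    unfold cf
    rw [dif_pos hγ]
  · have h5 : ip C6 (pv γ) (pv γ) ≠ 2 := by
      rw [hip]; exact hγ
    rw [cf_eq_zero C6 v hγ, cf_eq_zero C6 v h5]

theorem JQA (hLST : LST_stmt) (hRTF : RTF_stmt) (hSIG : SIG_stmt) (hSGR : SGR_stmt) : JQA_stmt := by
  classical
  have _ := hLST
  intro K _ h2 g hg hinv t H1 H2
  have hcfLT : ∀ v ∈ LT (RingEquiv.refl K), ∀ γ, cf v (pv γ) = cf v γ :=
    fun v hv γ => JQA_mem h2 hRTF hv γ
  obtain ⟨hip, hpv2, hpva, hpvn, _, _, hsn, _, _, _, _, _, _, hth, _⟩ := hRTF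
  obtain ⟨hsa, hsm, _, _, _, hsE, _, _⟩ := hSIG K (RingEquiv.refl K) (fun x => rfl)
  obtain ⟨_, hAu, hgsi⟩ := (hSGR K (RingEquiv.refl K) (fun x => rfl)).2.2.2.2.2 g hg
  have hsym : ∀ v w : Lm C6 K, fm C6 v w = fm C6 w v := (f_INV 6 C6 K).2.2.1
  have htwo : ∀ x : K, x + x = 0 := fun x => by rw [← two_mul, h2, zero_mul]
  have hadd : ∀ v ∈ LT (RingEquiv.refl K), ∀ w ∈ LT (RingEquiv.refl K), v + w ∈ LT (RingEquiv.refl K) := by
    intro v hv w hw
    change si (RingEquiv.refl K) (v + w) = v + w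
    rw [hsa, show si (RingEquiv.refl K) v = v from hv, show si (RingEquiv.refl K) w = w from hw]
  have hsmul : ∀ (c : K), ∀ v ∈ LT (RingEquiv.refl K), c • v ∈ LT (RingEquiv.refl K) := by
    intro c v hv
    change si (RingEquiv.refl K) (c • v) = c • v
    rw [hsm, show si (RingEquiv.refl K) v = v from hv]
    rfl
  have hgLT : ∀ v ∈ LT (RingEquiv.refl K), g v ∈ LT (RingEquiv.refl K) := by
    intro v hv
    change si (RingEquiv.refl K) (g v) = g v
    rw [hgsi, show si (RingEquiv.refl K) v = v from hv]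
  have hcross : ∀ v ∈ LT (RingEquiv.refl K), ∀ w ∈ LT (RingEquiv.refl K),
      fm C6 v (g w) + fm C6 w (g v) = 0 := by
    intro v hv w hw
    have h3 : fm C6 w (g v) = fm C6 v (g w) := by
      rw [← hAu.fm w (g v), hinv v hv, hsym]
    rw [h3]
    exact htwo _
  have hQadd : ∀ v ∈ LT (RingEquiv.refl K), ∀ w ∈ LT (RingEquiv.refl K),
      fm C6 v (g v) = t ^ 2 * fm C6 (E C6 th) v ^ 2 → fm C6 w (g w) = t ^ 2 * fm C6 (E C6 th) w ^ 2 →
      fm C6 (v + w) (g (v + w)) = t ^ 2 * fm C6 (E C6 th) (v + w) ^ 2 := by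
    intro v hv w hw h3 h4
    rw [map_add, fm_add_left, fm_add_right, fm_add_right, fm_add_right]
    have h5 := hcross v hv w hw
    have h6 : fm C6 v (g v) + fm C6 v (g w) + (fm C6 w (g v) + fm C6 w (g w)) =
        fm C6 v (g v) + fm C6 w (g w) + (fm C6 v (g w) + fm C6 w (g v)) := by ring
    rw [h6, h5, add_zero, h3, h4]
    have h7 : (fm C6 (E C6 th) v + fm C6 (E C6 th) w) ^ 2 =
        fm C6 (E C6 th) v ^ 2 + fm C6 (E C6 th) w ^ 2 + 2 * (fm C6 (E C6 th) v * fm C6 (E C6 th) w) := by ring
    rw [h7, h2]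
    ring
  have hQsmul : ∀ (c : K) (v : Lm C6 K), fm C6 v (g v) = t ^ 2 * fm C6 (E C6 th) v ^ 2 →
      fm C6 (c • v) (g (c • v)) = t ^ 2 * fm C6 (E C6 th) (c • v) ^ 2 := by
    intro c v h3
    rw [map_smul, fm_smul_left, fm_smul_right, fm_smul_right, h3]
    ring
  have hthr : ip C6 th th = 2 := hth.1
  -- the pairs of short roots
  have hpair : ∀ δ, ip C6 δ δ = 2 → ∀ w ∈ LT (RingEquiv.refl K),
      fm C6 (E C6 δ + E C6 (pv δ)) w = 0 := by
    intro δ hδ w hw
    have hδ' : ip C6 (pv δ) (pv δ) = 2 := by rw [hip]; exact hδ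
    rw [fm_add_left, fm_E C6 hδ, fm_E C6 hδ', ← hpvn, hcfLT w hw]
    exact htwo _
  have hsn1 : ∀ γ, (sn γ : K) = 1 := by
    intro γ
    rcases hsn γ with h | h
    · rw [h]; simp
    · rw [h]
      push_cast
      exact JQA_one h2
  have hpairLT : ∀ δ, ip C6 δ δ = 2 → (E C6 δ + E C6 (pv δ) : Lm C6 K) ∈ LT (RingEquiv.refl K) := by
    intro δ hδ
    have hδ' : ip C6 (pv δ) (pv δ) = 2 := by rw [hip]; exact hδ
    change si (RingEquiv.refl K) _ = _
    rw [hsa, hsE δ hδ, hsE (pv δ) hδ', hsn1, hsn1, one_smul, one_smul, hpv2]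
    exact add_comm _ _
  have hpairQ : ∀ δ, ip C6 δ δ = 2 → fm C6 (E C6 δ + E C6 (pv δ)) (g (E C6 δ + E C6 (pv δ))) =
      t ^ 2 * fm C6 (E C6 th) (E C6 δ + E C6 (pv δ)) ^ 2 := by
    intro δ hδ
    rw [hpair δ hδ _ (hgLT _ (hpairLT δ hδ)), hsym (E C6 th)]
    have h3 : (E C6 th : Lm C6 K) ∈ LT (RingEquiv.refl K) := by
      change si (RingEquiv.refl K) _ = _
      rw [hsE th hthr, hsn1, one_smul, hth.2]
    rw [hpair δ hδ _ h3]
    ring
  -- induction on the support
  have main : ∀ (N : ℕ) (v : Lm C6 K), v ∈ LT (RingEquiv.refl K) →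
      (Finset.univ.filter fun γ : Rt C6 => v.2 γ ≠ 0).card = N →
      fm C6 v (g v) = t ^ 2 * fm C6 (E C6 th) v ^ 2 := by
    intro N
    induction N using Nat.strong_induction_on with
    | _ N ih =>
      intro v hv hN
      by_cases hex : ∃ γ : Rt C6, v.2 γ ≠ 0
      · obtain ⟨γ, hγ⟩ := hex
        -- the element to be subtracted
        have key : ∀ u : Lm C6 K, u ∈ LT (RingEquiv.refl K) →
            fm C6 u (g u) = t ^ 2 * fm C6 (E C6 th) u ^ 2 →
            (v - u).2 γ = 0 → (∀ δ : Rt C6, v.2 δ = 0 → (v - u).2 δ = 0) →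
            fm C6 v (g v) = t ^ 2 * fm C6 (E C6 th) v ^ 2 := by
          intro u hu hQu h3 h4
          have hvu : v - u ∈ LT (RingEquiv.refl K) := by
            have h5 : v - u = v + (-1 : K) • u := by
              rw [neg_one_smul, sub_eq_add_neg]
            rw [h5]
            exact hadd v hv _ (hsmul _ u hu)
          have hlt : (Finset.univ.filter fun δ : Rt C6 => (v - u).2 δ ≠ 0).card < N := by
            rw [← hN]
            refine Finset.card_lt_card ?_
            rw [Finset.ssubset_iff_of_subset]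
            · refine ⟨γ, Finset.mem_filter.2 ⟨Finset.mem_univ _, hγ⟩, ?_⟩
              intro h5
              exact (Finset.mem_filter.1 h5).2 h3
            · intro δ hδ
              have h5 := (Finset.mem_filter.1 hδ).2
              refine Finset.mem_filter.2 ⟨Finset.mem_univ _, fun h6 => h5 (h4 δ h6)⟩
          have h6 := ih _ hlt (v - u) hvu rfl
          have h7 := hQadd (v - u) hvu u hu h6 hQu
          rw [sub_add_cancel] at h7
          exact h7
        have hγr : ip C6 γ.1 γ.1 = 2 := γ.2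
        have hcfγ : cf v γ.1 = v.2 γ := by
          unfold cf
          rw [dif_pos hγr]
        by_cases hp : pv γ.1 = γ.1
        · -- long root
          refine key (v.2 γ • (E C6 γ.1 : Lm C6 K)) ?_ ?_ ?_ ?_
          · refine hsmul _ _ ?_
            change si (RingEquiv.refl K) _ = _
            rw [hsE γ.1 hγr, hsn1, one_smul, hp]
          · exact hQsmul _ _ (H1 γ.1 ⟨hγr, hp⟩)
          · have h3 : cf (v - v.2 γ • (E C6 γ.1 : Lm C6 K)) γ.1 = 0 := by
              rw [cf_sub, cf_smul, cf_E C6 hγr, if_pos rfl, hcfγ]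
              ring
            unfold cf at h3
            rw [dif_pos hγr] at h3
            exact h3
          · intro δ hδ
            have hne : δ.1 ≠ γ.1 := by
              intro h
              exact hγ (by rw [← Subtype.ext h]; exact hδ)
            have h3 : cf (v - v.2 γ • (E C6 γ.1 : Lm C6 K)) δ.1 = 0 := by
              rw [cf_sub, cf_smul, cf_E C6 hγr, if_neg hne, mul_zero, sub_zero]
              unfold cf
              rw [dif_pos δ.2]
              exact hδ
            unfold cf at h3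
            rw [dif_pos δ.2] at h3
            exact h3
        · -- short root
          have hγr' : ip C6 (pv γ.1) (pv γ.1) = 2 := by rw [hip]; exact hγr
          have hval : ∀ δ : Fin 6 → ℤ, cf (v - v.2 γ • (E C6 γ.1 + E C6 (pv γ.1) : Lm C6 K)) δ =
              cf v δ - v.2 γ * ((if δ = γ.1 then 1 else 0) + (if δ = pv γ.1 then 1 else 0)) := by
            intro δ
            rw [cf_sub, cf_smul, cf_add, cf_E C6 hγr, cf_E C6 hγr']
          refine key (v.2 γ • (E C6 γ.1 + E C6 (pv γ.1) : Lm C6 K)) ?_ ?_ ?_ ?_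
          · exact hsmul _ _ (hpairLT γ.1 hγr)
          · exact hQsmul _ _ (hpairQ γ.1 hγr)
          · have h3 := hval γ.1
            rw [if_pos rfl, if_neg (fun h => hp h.symm), hcfγ] at h3
            have h4 : cf (v - v.2 γ • (E C6 γ.1 + E C6 (pv γ.1) : Lm C6 K)) γ.1 = 0 := by
              rw [h3]; ring
            unfold cf at h4
            rw [dif_pos hγr] at h4
            exact h4
          · intro δ hδ
            have hcfδ : cf v δ.1 = 0 := by
              unfold cf
              rw [dif_pos δ.2]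
              exact hδ
            have hne : δ.1 ≠ γ.1 := by
              intro h
              exact hγ (by rw [← Subtype.ext h]; exact hδ)
            have hne' : δ.1 ≠ pv γ.1 := by
              intro h
              rw [h, hcfLT v hv, hcfγ] at hcfδ
              exact hγ hcfδ
            have h3 := hval δ.1
            rw [if_neg hne, if_neg hne', hcfδ] at h3
            have h4 : cf (v - v.2 γ • (E C6 γ.1 + E C6 (pv γ.1) : Lm C6 K)) δ.1 = 0 := by
              rw [h3]; ring
            unfold cf at h4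
            rw [dif_pos δ.2] at h4
            exact h4
      · push Not at hex
        have h3 : v = (v.1, 0) := by
          refine Prod.ext rfl ?_
          funext γ
          exact hex γ
        rw [h3]
        have h4 : ((v.1, 0) : Lm C6 K) ∈ LT (RingEquiv.refl K) := by
          rw [← h3]; exact hv
        rw [H2 v.1 h4, fm_E_H C6 hthr]
        ring
  intro v hv
  exact main _ v hv rfl

end Pool.Agent.EXT
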