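import Pool.Agent.helper32.EXT.Spec7

/-!
# Project EXT (MP_561ff4_al), row EM7: the vectors `em7 v`
-/

set_option autoImplicit false

open Finset

namespace Pool.Agent.EXT

open Pool.Agent.EXC

theorem EM7_sn : ∀ i, sn (pv (mu7 i)) = sn (mu7 i) ∧ sn (mu7 i) * sn (mu7 i) = 1 ∧ pv (pv (mu7 i)) = mu7 i := by
  decide +kernel

theorem EM7_cf {K : Type} [Field K] (v : Fin 8 → K) (j : Fin 8) : cf (em7 v) (mu7 j) = v j := by
  let φ : Lm C6 K →+ K := AddMonoidHom.mk' (fun x => cf x (mu7 j)) (fun x y => cf_add C6 x y (mu7 j))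
  have h0 : ∀ x, φ x = cf x (mu7 j) := fun _ => rfl
  have h1 : cf (em7 v) (mu7 j) = ∑ i, φ (v i • ((E C6 (mu7 i) : Lm C6 K) + (sn (mu7 i) : K) • (E C6 (pv (mu7 i)) : Lm C6 K))) := by
    rw [← map_sum]
    rfl
  rw [h1, Finset.sum_eq_single j]
  · rw [h0, cf_smul, cf_add, cf_smul, cf_E C6 (mu7_root j).1, cf_E C6 (mu7_root j).2.1, if_pos rfl,
      if_neg (fun h => (mu7_root j).2.2 h.symm)]
    ring
  · intro i _ hij
    rw [h0, cf_smul, cf_add, cf_smul, cf_E C6 (mu7_root i).1, cf_E C6 (mu7_root i).2.1,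
      if_neg (fun h => hij ((mu7_inj j i).1 h).symm), if_neg (fun h => (mu7_inj i j).2 h.symm)]
    ring
  · intro h
    exact absurd (Finset.mem_univ j) h

theorem EM7 (hSIG : SIG_stmt) : EM7_stmt := by
  intro K _ τ hτ
  obtain ⟨h1, h2, -, -, -, h6, -, -⟩ := hSIG K τ hτ
  refine ⟨?_, ?_⟩
  · intro v hv
    let φ : Lm C6 K →+ Lm C6 K := AddMonoidHom.mk' (fun x => si τ x) (fun x y => h1 x y)
    have h0 : ∀ x, φ x = si τ x := fun _ => rfl
    change si τ (em7 v) = em7 v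
    unfold em7
    rw [← h0, map_sum]
    refine Finset.sum_congr rfl fun i _ => ?_
    rw [h0, h2, hv i, h1, h2, h6 _ (mu7_root i).1, h6 _ (mu7_root i).2.1, (EM7_sn i).1, (EM7_sn i).2.2,
      map_intCast, smul_smul, ← Int.cast_mul, (EM7_sn i).2.1, Int.cast_one, one_smul, add_comm]
  · intro v w h
    funext j
    rw [← EM7_cf v j, ← EM7_cf w j, h]

end Pool.Agent.EXT
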